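import Pool.Agent.Y675.TC.Stm

/-!
# Complete exponential sums over the zeros of a quartic form (project TC of helper675)
-/

set_option autoImplicit false

namespace Pool.Agent.Y705.TC

open Finset Pool.Agent.Y675.TC

/-- the summand on integers -/
noncomputable def fq (B q : ℕ) (J K : ℤ) (x y : ℤ) : ℂ :=
  if (q : ℤ) ∣ FF B x y then ee (((J * x + K * y : ℤ) : ℝ) / (q : ℝ)) else 0

lemma AA_eq (B q : ℕ) (J K : ℤ) :
    AA B q J K = ∑ x ∈ range q, ∑ y ∈ range q, fq B q J K (x : ℤ) (y : ℤ) := rfl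

/-- sums over `range q` and over `ZMod q` -/
lemma sum_range_zmod {M : Type*} [AddCommMonoid M] (q : ℕ) [NeZero q] (g : ZMod q → M) :
    ∑ x ∈ range q, g (x : ZMod q) = ∑ z : ZMod q, g z := by
  refine Finset.sum_nbij' (fun x : ℕ => (x : ZMod q)) (fun z : ZMod q => z.val) ?_ ?_ ?_ ?_ ?_
  · intro a _; exact mem_univ _
  · intro z _; exact mem_range.mpr (ZMod.val_lt z)
  · intro a ha; exact ZMod.val_cast_of_lt (mem_range.mp ha)
  · intro z _; exact ZMod.natCast_zmod_val z
  · intro a _; rfl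

lemma ee_std (q : ℕ) [NeZero q] (j : ℤ) :
    ee ((j : ℝ) / (q : ℝ)) = ZMod.stdAddChar (N := q) (j : ZMod q) := by
  rw [ZMod.stdAddChar_coe, ee]
  congr 1
  push_cast
  ring

/-- the value of the form in `ZMod q` -/
def PH (B q : ℕ) (x y : ZMod q) : ZMod q := y ^ 4 + 6 * B * x ^ 2 * y ^ 2 + (B : ZMod q) ^ 2 * x ^ 4

lemma FF_cast (B q : ℕ) (x y : ℤ) : ((FF B x y : ℤ) : ZMod q) = PH B q x y := by
  unfold FF PH
  push_cast
  ring

lemma fq_eq (B q : ℕ) [NeZero q] (J K x y : ℤ) :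
    fq B q J K x y =
      if PH B q x y = 0 then ZMod.stdAddChar (N := q) ((J : ZMod q) * x + K * y) else 0 := by
  have hd : (q : ℤ) ∣ FF B x y ↔ PH B q x y = 0 := by
    rw [← ZMod.intCast_zmod_eq_zero_iff_dvd, FF_cast]
  have he : ee (((J * x + K * y : ℤ) : ℝ) / (q : ℝ)) =
      ZMod.stdAddChar (N := q) ((J : ZMod q) * x + K * y) := by
    rw [ee_std]
    push_cast
    rfl
  unfold fq
  rw [he]
  simp only [hd]

lemma AA_zmod (B q : ℕ) [NeZero q] (J K : ℤ) :
    AA B q J K = ∑ x : ZMod q, ∑ y : ZMod q,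
      if PH B q x y = 0 then ZMod.stdAddChar (N := q) ((J : ZMod q) * x + K * y) else 0 := by
  rw [AA_eq, ← sum_range_zmod]
  refine sum_congr rfl fun x _ => ?_
  rw [← sum_range_zmod]
  refine sum_congr rfl fun y _ => ?_
  rw [fq_eq]
  simp

/-- one dimensional reindexing -/
lemma crt_sum (m n : ℕ) (hm : 0 < m) (hn : 0 < n) (h : m.Coprime n) (g : ZMod (m * n) → ℂ) :
    ∑ x ∈ range (m * n), g (x : ZMod (m * n)) =
      ∑ x₁ ∈ range m, ∑ x₂ ∈ range n, g ((n * x₁ + m * x₂ : ℕ) : ZMod (m * n)) := by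
  rw [← Finset.sum_product']
  symm
  have hmn : 0 < m * n := Nat.mul_pos hm hn
  have hmaps : ∀ p ∈ range m ×ˢ range n, (n * p.1 + m * p.2) % (m * n) ∈ range (m * n) := by
    intro p _
    exact mem_range.mpr (Nat.mod_lt _ hmn)
  have hinj : Set.InjOn (fun p : ℕ × ℕ => (n * p.1 + m * p.2) % (m * n))
      (↑(range m ×ˢ range n) : Set (ℕ × ℕ)) := by
    rintro ⟨a, b⟩ hab ⟨c, d⟩ hcd hE
    simp only [coe_product, coe_range, Set.mem_prod, Set.mem_Iio] at hab hcd
    have hE' : (n * a + m * b) ≡ (n * c + m * d) [MOD (m * n)] := hE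
    have h1 : n * a ≡ n * c [MOD m] := by
      have h0 := hE'.of_mul_right n
      have e1 : (n * a + m * b) ≡ n * a [MOD m] := by
        simp [Nat.ModEq]
      have e2 : (n * c + m * d) ≡ n * c [MOD m] := by
        simp [Nat.ModEq]
      exact e1.symm.trans (h0.trans e2)
    have h2 : m * b ≡ m * d [MOD n] := by
      have h0 := hE'.of_mul_left m
      have e1 : (n * a + m * b) ≡ m * b [MOD n] := by
        simp [Nat.ModEq]
      have e2 : (n * c + m * d) ≡ m * d [MOD n] := by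
        simp [Nat.ModEq]
      exact e1.symm.trans (h0.trans e2)
    have h3 : a ≡ c [MOD m] := Nat.ModEq.cancel_left_of_coprime h h1
    have h4 : b ≡ d [MOD n] := Nat.ModEq.cancel_left_of_coprime h.symm h2
    have h5 : a = c := by
      have := h3
      unfold Nat.ModEq at this
      rwa [Nat.mod_eq_of_lt hab.1, Nat.mod_eq_of_lt hcd.1] at this
    have h6 : b = d := by
      have := h4
      unfold Nat.ModEq at this
      rwa [Nat.mod_eq_of_lt hab.2, Nat.mod_eq_of_lt hcd.2] at this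
    rw [h5, h6]
  refine Finset.sum_nbij (fun p : ℕ × ℕ => (n * p.1 + m * p.2) % (m * n)) hmaps hinj ?_ ?_
  · have := Finset.surjOn_of_injOn_of_card_le (s := range m ×ˢ range n) (t := range (m * n))
      (fun p : ℕ × ℕ => (n * p.1 + m * p.2) % (m * n)) hmaps hinj (by simp)
    exact this
  · rintro ⟨a, b⟩ _
    simp [ZMod.natCast_mod]

lemma fq_mul (B m n : ℕ) (hm : 0 < m) (hn : 0 < n) (h : m.Coprime n) (J K x₁ x₂ y₁ y₂ : ℤ) :
    fq B (m * n) J K (n * x₁ + m * x₂) (n * y₁ + m * y₂) = fq B m J K x₁ y₁ * fq B n J K x₂ y₂ := by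
  have hmz : (m : ℝ) ≠ 0 := by positivity
  have hnz : (n : ℝ) ≠ 0 := by positivity
  have hcop : IsCoprime (m : ℤ) (n : ℤ) := Nat.isCoprime_iff_coprime.mpr h
  have hd : ((m * n : ℕ) : ℤ) ∣ FF B (n * x₁ + m * x₂) (n * y₁ + m * y₂) ↔
      (m : ℤ) ∣ FF B x₁ y₁ ∧ (n : ℤ) ∣ FF B x₂ y₂ := by
    have e1 : (m : ℤ) ∣ FF B (n * x₁ + m * x₂) (n * y₁ + m * y₂) ↔ (m : ℤ) ∣ FF B x₁ y₁ := by
      have : (m : ℤ) ∣ FF B (n * x₁ + m * x₂) (n * y₁ + m * y₂) - (n : ℤ) ^ 4 * FF B x₁ y₁ := by
        rw [← ZMod.intCast_zmod_eq_zero_iff_dvd]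
        push_cast
        rw [FF_cast, FF_cast]
        unfold PH
        push_cast
        rw [ZMod.natCast_self]
        ring
      rw [(Int.dvd_iff_dvd_of_dvd_sub this)]
      constructor
      · intro hh
        exact (hcop.pow_right (n := 4)).dvd_of_dvd_mul_left hh
      · intro hh
        exact dvd_mul_of_dvd_right hh _
    have e2 : (n : ℤ) ∣ FF B (n * x₁ + m * x₂) (n * y₁ + m * y₂) ↔ (n : ℤ) ∣ FF B x₂ y₂ := by
      have : (n : ℤ) ∣ FF B (n * x₁ + m * x₂) (n * y₁ + m * y₂) - (m : ℤ) ^ 4 * FF B x₂ y₂ := by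
        rw [← ZMod.intCast_zmod_eq_zero_iff_dvd]
        push_cast
        rw [FF_cast, FF_cast]
        unfold PH
        push_cast
        rw [ZMod.natCast_self]
        ring
      rw [(Int.dvd_iff_dvd_of_dvd_sub this)]
      constructor
      · intro hh
        exact (hcop.symm.pow_right (n := 4)).dvd_of_dvd_mul_left hh
      · intro hh
        exact dvd_mul_of_dvd_right hh _
    rw [← e1, ← e2]
    constructor
    · intro hh
      push_cast at hh
      exact ⟨dvd_trans (Dvd.intro _ rfl) hh, dvd_trans (Dvd.intro_left _ rfl) hh⟩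
    · rintro ⟨h1, h2⟩
      push_cast
      exact hcop.mul_dvd h1 h2
  have hexp : ee (((J * (n * x₁ + m * x₂) + K * (n * y₁ + m * y₂) : ℤ) : ℝ) / ((m * n : ℕ) : ℝ)) =
      ee (((J * x₁ + K * y₁ : ℤ) : ℝ) / (m : ℝ)) * ee (((J * x₂ + K * y₂ : ℤ) : ℝ) / (n : ℝ)) := by
    unfold ee
    rw [← Complex.exp_add]
    congr 1
    have hmc : (m : ℂ) ≠ 0 := by exact_mod_cast hm.ne'
    have hnc : (n : ℂ) ≠ 0 := by exact_mod_cast hn.ne'
    push_cast
    field_simp
    ring
  unfold fq
  rw [hexp]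
  by_cases h1 : (m : ℤ) ∣ FF B x₁ y₁
  · by_cases h2 : (n : ℤ) ∣ FF B x₂ y₂
    · rw [if_pos (hd.mpr ⟨h1, h2⟩), if_pos h1, if_pos h2]
    · rw [if_neg (fun hh => h2 (hd.mp hh).2), if_neg h2, mul_zero]
  · rw [if_neg (fun hh => h1 (hd.mp hh).1), if_neg h1, zero_mul]

lemma AA_mul (B m n : ℕ) (hm : 0 < m) (hn : 0 < n) (h : m.Coprime n) (J K : ℤ) :
    AA B (m * n) J K = AA B m J K * AA B n J K := by
  have : NeZero (m * n) := ⟨(Nat.mul_pos hm hn).ne'⟩
  set G : ZMod (m * n) → ZMod (m * n) → ℂ := fun x y =>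
    if PH B (m * n) x y = 0 then ZMod.stdAddChar (N := m * n) ((J : ZMod (m * n)) * x + K * y) else 0
    with hG
  have hGf : ∀ x y : ℕ, fq B (m * n) J K (x : ℤ) (y : ℤ) = G (x : ZMod (m * n)) (y : ZMod (m * n)) := by
    intro x y
    rw [fq_eq, hG]
    simp
  rw [AA_eq]
  have e1 : ∑ x ∈ range (m * n), ∑ y ∈ range (m * n), fq B (m * n) J K (x : ℤ) (y : ℤ) =
      ∑ x ∈ range (m * n), (fun X : ZMod (m * n) => ∑ y ∈ range (m * n), G X (y : ZMod (m * n)))
        (x : ZMod (m * n)) := by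
    refine sum_congr rfl fun x _ => sum_congr rfl fun y _ => hGf x y
  rw [e1, crt_sum m n hm hn h (fun X : ZMod (m * n) => ∑ y ∈ range (m * n), G X (y : ZMod (m * n)))]
  have e2 : ∀ x₁ ∈ range m, ∀ x₂ ∈ range n,
      (fun X : ZMod (m * n) => ∑ y ∈ range (m * n), G X (y : ZMod (m * n)))
        ((n * x₁ + m * x₂ : ℕ) : ZMod (m * n)) =
      ∑ y₁ ∈ range m, ∑ y₂ ∈ range n, fq B m J K x₁ y₁ * fq B n J K x₂ y₂ := by
    intro x₁ _ x₂ _
    simp only
    rw [crt_sum m n hm hn h (fun Y => G ((n * x₁ + m * x₂ : ℕ) : ZMod (m * n)) Y)]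
    refine sum_congr rfl fun y₁ _ => sum_congr rfl fun y₂ _ => ?_
    rw [← hGf, ← fq_mul B m n hm hn h]
    push_cast
    rfl
  rw [sum_congr rfl fun x₁ h₁ => sum_congr rfl fun x₂ h₂ => e2 x₁ h₁ x₂ h₂]
  rw [AA_eq, AA_eq, Finset.sum_mul_sum]
  refine sum_congr rfl fun x₁ _ => sum_congr rfl fun x₂ _ => ?_
  rw [Finset.sum_mul_sum]

section prime

variable (B p : ℕ) [Fact p.Prime]

/-- roots in `ZMod p` -/
def RR : Finset (ZMod p) := univ.filter (fun t : ZMod p => PH B p 1 t = 0)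

lemma Rt_card : (Rt B p).card = (RR B p).card := by
  unfold Rt RR
  rw [Finset.card_filter, Finset.card_filter, ← sum_range_zmod p]
  refine sum_congr rfl fun x _ => ?_
  have : ((p : ℤ) ∣ FF B 1 x) ↔ PH B p 1 (x : ZMod p) = 0 := by
    rw [← ZMod.intCast_zmod_eq_zero_iff_dvd, FF_cast]
    simp
  simp only [this]

lemma RR_card_le : (RR B p).card ≤ 4 := by
  classical
  let P : Polynomial (ZMod p) := Polynomial.X ^ 4 + Polynomial.C (6 * (B : ZMod p)) * Polynomial.X ^ 2 +
    Polynomial.C ((B : ZMod p) ^ 2)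
  have hdeg : P.natDegree = 4 := by
    simp only [P]
    compute_degree!
  have hP0 : P ≠ 0 := by
    intro h0
    rw [h0] at hdeg
    simp at hdeg
  have hsub : (RR B p) ⊆ P.roots.toFinset := by
    intro t ht
    unfold RR PH at ht
    rw [Multiset.mem_toFinset, Polynomial.mem_roots hP0, Polynomial.IsRoot.def]
    simp only [P, Polynomial.eval_add, Polynomial.eval_mul, Polynomial.eval_pow, Polynomial.eval_X,
      Polynomial.eval_C]
    rw [mem_filter] at ht
    have := ht.2
    ring_nf at this ⊢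
    exact this
  calc (RR B p).card ≤ P.roots.toFinset.card := card_le_card hsub
    _ ≤ P.roots.card := Multiset.toFinset_card_le _
    _ ≤ P.natDegree := Polynomial.card_roots' P
    _ = 4 := hdeg

lemma AA_prime (J K : ℤ) : AA B p J K =
    1 - ((RR B p).card : ℂ) +
      (p : ℂ) * (((RR B p).filter (fun t => (J : ZMod p) + K * t = 0)).card : ℂ) := by
  classical
  rw [AA_zmod]
  have hx0 : ∀ x : ZMod p, x ≠ 0 → ∑ y : ZMod p,
      (if PH B p x y = 0 then ZMod.stdAddChar (N := p) ((J : ZMod p) * x + K * y) else 0) =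
      ∑ t ∈ RR B p, ZMod.stdAddChar (N := p) (x * ((J : ZMod p) + K * t)) := by
    intro x hx
    rw [← Equiv.sum_comp (Equiv.mulRight₀ x hx)]
    unfold RR
    rw [sum_filter]
    refine sum_congr rfl fun t _ => ?_
    have e : PH B p x (t * x) = x ^ 4 * PH B p 1 t := by
      unfold PH; ring
    simp only [Equiv.mulRight₀_apply, e]
    have e2 : (x ^ 4 * PH B p 1 t = 0) ↔ PH B p 1 t = 0 := by
      constructor
      · intro h
        rcases mul_eq_zero.mp h with h | h
        · exact absurd (pow_eq_zero_iff (by norm_num) |>.mp h) hx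
        · exact h
      · intro h; rw [h, mul_zero]
    have e3 : (J : ZMod p) * x + K * (t * x) = x * ((J : ZMod p) + K * t) := by ring
    simp only [e2, e3]
  have h0 : ∑ y : ZMod p,
      (if PH B p 0 y = 0 then ZMod.stdAddChar (N := p) ((J : ZMod p) * 0 + K * y) else 0) = 1 := by
    rw [Finset.sum_eq_single (0 : ZMod p)]
    · simp [PH]
    · intro y _ hy
      rw [if_neg]
      unfold PH
      simp [hy]
    · intro h; exact absurd (mem_univ _) h
  rw [← Finset.add_sum_erase _ _ (mem_univ (0 : ZMod p)), h0]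
  rw [sum_congr rfl fun x hx => hx0 x (ne_of_mem_erase hx)]
  rw [Finset.sum_comm]
  have hin : ∀ t ∈ RR B p, ∑ x ∈ univ.erase (0 : ZMod p),
      ZMod.stdAddChar (N := p) (x * ((J : ZMod p) + K * t)) =
      (if (J : ZMod p) + K * t = 0 then (p : ℂ) else 0) - 1 := by
    intro t _
    have h1 := AddChar.sum_mulShift (ψ := ZMod.stdAddChar (N := p)) ((J : ZMod p) + K * t)
      (ZMod.isPrimitive_stdAddChar p)
    rw [← Finset.add_sum_erase _ _ (mem_univ (0 : ZMod p))] at h1
    rw [zero_mul, AddChar.map_zero_eq_one, ZMod.card] at h1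
    have h2 : ((if (J : ZMod p) + K * t = 0 then p else 0 : ℕ) : ℂ) =
        if (J : ZMod p) + K * t = 0 then (p : ℂ) else 0 := by
      split_ifs <;> simp
    rw [h2] at h1
    rw [← h1]
    ring
  rw [sum_congr rfl hin, Finset.sum_sub_distrib]
  rw [← Finset.sum_filter]
  simp only [sum_const, nsmul_eq_mul, mul_one]
  ring

lemma AA_zero_prime : AA B p 0 0 = (((p : ℝ) ^ 2 * gd B p : ℝ) : ℂ) := by
  have hp : (p : ℂ) ≠ 0 := by exact_mod_cast (Fact.out : p.Prime).ne_zero
  rw [AA_prime]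
  unfold gd
  rw [Rt_card]
  have : (RR B p).filter (fun t => ((0 : ℤ) : ZMod p) + ((0 : ℤ) : ZMod p) * t = 0) = RR B p := by
    apply filter_true_of_mem
    intro t _
    simp
  rw [this]
  push_cast
  field_simp
  ring

lemma AA_bound_prime (J K : ℤ) :
    ‖AA B p J K‖ ≤ 7 * (Nat.gcd p (FF B K J).natAbs : ℝ) := by
  have hpp : p.Prime := Fact.out
  have hp1 : (1 : ℝ) ≤ p := by exact_mod_cast hpp.one_lt.le
  rw [AA_prime]
  have hR := RR_card_le B p
  have hR' : ((RR B p).card : ℝ) ≤ 4 := by exact_mod_cast hR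
  have hn1 : ‖(1 : ℂ) - ((RR B p).card : ℂ)‖ ≤ 3 := by
    have : (1 : ℂ) - ((RR B p).card : ℂ) = (((1 : ℝ) - ((RR B p).card : ℝ) : ℝ) : ℂ) := by
      push_cast; rfl
    rw [this, Complex.norm_real, Real.norm_eq_abs, abs_le]
    constructor
    · linarith
    · have : (0 : ℝ) ≤ ((RR B p).card : ℝ) := by positivity
      linarith
  by_cases hc : ((RR B p).filter (fun t => (J : ZMod p) + K * t = 0)).Nonempty
  · obtain ⟨t, ht⟩ := hc
    rw [mem_filter] at ht
    obtain ⟨ht1, ht2⟩ := ht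
    have ht3 : PH B p 1 t = 0 := by
      unfold RR at ht1
      exact (mem_filter.mp ht1).2
    have hJ : (J : ZMod p) = - ((K : ZMod p) * t) := eq_neg_of_add_eq_zero_left ht2
    have hF : ((FF B K J : ℤ) : ZMod p) = 0 := by
      rw [FF_cast]
      have : PH B p (K : ZMod p) (J : ZMod p) = (K : ZMod p) ^ 4 * PH B p 1 t := by
        rw [hJ]; unfold PH; ring
      rw [this, ht3, mul_zero]
    have hdv : p ∣ (FF B K J).natAbs := by
      rw [ZMod.intCast_zmod_eq_zero_iff_dvd] at hF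
      exact Int.natCast_dvd.mp hF
    rw [Nat.gcd_eq_left hdv]
    have hcard : (((RR B p).filter (fun t => (J : ZMod p) + K * t = 0)).card : ℝ) ≤ 4 := by
      have := (card_filter_le (RR B p) (fun t => (J : ZMod p) + K * t = 0)).trans hR
      exact_mod_cast this
    have hn2 : ‖(p : ℂ) * (((RR B p).filter (fun t => (J : ZMod p) + K * t = 0)).card : ℂ)‖ ≤
        4 * p := by
      rw [norm_mul, Complex.norm_natCast, Complex.norm_natCast]
      nlinarith
    calc _ ≤ 3 + 4 * (p : ℝ) := (norm_add_le _ _).trans (add_le_add hn1 hn2)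
      _ ≤ 7 * (p : ℝ) := by linarith
  · rw [not_nonempty_iff_eq_empty] at hc
    rw [hc]
    have hg : (1 : ℝ) ≤ (Nat.gcd p (FF B K J).natAbs : ℝ) := by
      exact_mod_cast Nat.gcd_pos_of_pos_left _ hpp.pos
    simp only [card_empty, Nat.cast_zero, mul_zero, add_zero]
    linarith

end prime

lemma AA_one (B : ℕ) (J K : ℤ) : AA B 1 J K = 1 := by
  rw [AA_zmod]
  have h1 : (univ : Finset (ZMod 1)) = {0} := rfl
  rw [h1]
  simp [PH]

/-- EXP -/
theorem t : S_EXP := by
  intro B q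
  induction q using Nat.strong_induction_on with
  | _ q ih =>
    intro hq
    have hq0 : q ≠ 0 := hq.ne_zero
    by_cases hq1 : q = 1
    · subst hq1
      refine ⟨?_, ?_⟩
      · rw [AA_one]; simp
      · intro J K
        rw [AA_one]; simp
    · set p := q.minFac with hp
      have hpp : p.Prime := Nat.minFac_prime hq1
      have : Fact p.Prime := ⟨hpp⟩
      obtain ⟨r, hr⟩ := Nat.minFac_dvd q
      rw [← hp] at hr
      have hr0 : 0 < r := by
        rcases Nat.eq_zero_or_pos r with h | h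
        · subst h; simp at hr; exact absurd hr hq0
        · exact h
      rw [hr] at hq
      have hcop : p.Coprime r := Nat.coprime_of_squarefree_mul hq
      have hrs : Squarefree r := hq.of_mul_right
      have hlt : r < q := by
        rw [hr]
        exact (Nat.lt_mul_iff_one_lt_left hr0).mpr hpp.one_lt
      obtain ⟨ih1, ih2⟩ := ih r hlt hrs
      have hpf : q.primeFactors = insert p r.primeFactors := by
        rw [hr, hcop.primeFactors_mul, hpp.primeFactors]
        rfl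
      have hnot : p ∉ r.primeFactors := by
        intro hmem
        have := Nat.dvd_of_mem_primeFactors hmem
        exact hpp.one_lt.ne' (Nat.Coprime.eq_one_of_dvd hcop this)
      refine ⟨?_, ?_⟩
      · rw [hpf, prod_insert hnot]
        conv_lhs => rw [hr]
        rw [AA_mul B p r hpp.pos hr0 hcop, AA_zero_prime, ih1]
        conv_rhs => rw [hr]
        push_cast
        ring
      · intro J K
        rw [hpf, card_insert_of_notMem hnot]
        conv_lhs => rw [hr]
        rw [AA_mul B p r hpp.pos hr0 hcop, norm_mul]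
        have e : (Nat.gcd q (FF B K J).natAbs : ℝ) =
            (Nat.gcd p (FF B K J).natAbs : ℝ) * (Nat.gcd r (FF B K J).natAbs : ℝ) := by
          rw [hr, Nat.gcd_comm, hcop.gcd_mul, Nat.gcd_comm _ p, Nat.gcd_comm _ r]
          push_cast
          ring
        rw [e]
        calc ‖AA B p J K‖ * ‖AA B r J K‖ ≤ (7 * (Nat.gcd p (FF B K J).natAbs : ℝ)) *
              (7 ^ r.primeFactors.card * (Nat.gcd r (FF B K J).natAbs : ℝ)) :=
              mul_le_mul (AA_bound_prime B p J K) (ih2 J K) (norm_nonneg _) (by positivity)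
          _ = _ := by ring

end Pool.Agent.Y705.TC
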